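import Mathlib.Analysis.Convex.Topology
import Mathlib.Analysis.Complex.Basic
import Mathlib.Tactic

/-!
# Images of half circles under interlacing rational functions need not be convex

For every `k ≥ 3` take the poles `-1, 1, 3, 4, 5, ...` and the weights `1/100, 1/100, 1, η, η, ...`.
On the unit circle `z = x + i y` one has `1 / (z + 1) + 1 / (z - 1) = - i / y`, so that for `η = 0` the
curve is the arc `1 / (z - 3)` (the lower half of a circle), shifted down by `1 / (100 y)`. It passes
through four points `a, b, c, m` such that `m` is an interior point of the triangle `a b c`; so `m` is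
an interior point of every convex set which contains the curve. This remains true for small `η > 0`.
-/

set_option autoImplicit false

open Filter Topology

namespace Pool.Agent.Results.MP_8e2370_an.NotConvex

/-- `R(z) = ∑ α_l / (z - p_l)`. -/
noncomputable def R {k : ℕ} (p α : Fin k → ℝ) (z : ℂ) : ℂ := ∑ l, (α l : ℂ) / (z - (p l : ℂ))

/-- The open upper half of the circle with diameter `[s, t]`. -/
def upperHalfCircle (s t : ℝ) : Set ℂ :=
  {z | ‖z - (((s + t) / 2 : ℝ) : ℂ)‖ = (t - s) / 2 ∧ 0 < z.im}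

/-- The planar cross product. -/
def cr (u v : ℂ) : ℝ := u.re * v.im - u.im * v.re

theorem continuous_cr {X : Type*} [TopologicalSpace X] {f g : X → ℂ} (hf : Continuous f)
    (hg : Continuous g) : Continuous fun x => cr (f x) (g x) := by
  unfold cr
  exact ((Complex.continuous_re.comp hf).mul (Complex.continuous_im.comp hg)).sub
    ((Complex.continuous_im.comp hf).mul (Complex.continuous_re.comp hg))

/-- A point inside a triangle with vertices in a convex set is an interior point. -/
theorem mem_interior_of_triangle {K : Set ℂ} (hK : Convex ℝ K) {a b c q : ℂ} (ha : a ∈ K)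
    (hb : b ∈ K) (hc : c ∈ K) (h1 : 0 < cr (b - a) (q - a)) (h2 : 0 < cr (c - b) (q - b))
    (h3 : 0 < cr (a - c) (q - c)) : q ∈ interior K := by
  rw [mem_interior]
  refine ⟨{x | 0 < cr (b - a) (x - a)} ∩ {x | 0 < cr (c - b) (x - b)} ∩
    {x | 0 < cr (a - c) (x - c)}, ?_, ?_, ⟨⟨h1, h2⟩, h3⟩⟩
  · rintro x ⟨⟨g1, g2⟩, g3⟩
    change 0 < cr (b - a) (x - a) at g1
    change 0 < cr (c - b) (x - b) at g2
    change 0 < cr (a - c) (x - c) at g3
    set A := cr (c - b) (x - b) with hA
    set B := cr (a - c) (x - c) with hB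
    set C := cr (b - a) (x - a) with hC
    have hS : 0 < A + B + C := by positivity
    have e : x = (A / (A + B + C)) • a + (B / (A + B + C)) • b + (C / (A + B + C)) • c := by
      have hS' : (A + B + C) ≠ 0 := hS.ne'
      apply Complex.ext
      · simp only [Complex.add_re, Complex.real_smul, Complex.re_ofReal_mul]
        field_simp
        rw [hA, hB, hC]
        simp only [cr, Complex.sub_re, Complex.sub_im]
        ring
      · simp only [Complex.add_im, Complex.real_smul, Complex.im_ofReal_mul]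
        field_simp
        rw [hA, hB, hC]
        simp only [cr, Complex.sub_re, Complex.sub_im]
        ring
    rw [e]
    have := hK.sum_mem (t := (Finset.univ : Finset (Fin 3)))
      (w := ![A / (A + B + C), B / (A + B + C), C / (A + B + C)]) (z := ![a, b, c]) ?_ ?_ ?_
    · simpa [Fin.sum_univ_three] using this
    · intro i _
      fin_cases i <;> simp <;> positivity
    · simp only [Fin.sum_univ_three, Matrix.cons_val_zero, Matrix.cons_val_one, Matrix.cons_val]
      field_simp
    · intro i _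
      fin_cases i <;> simpa
  · refine IsOpen.inter (IsOpen.inter ?_ ?_) ?_
    · exact isOpen_lt continuous_const (continuous_cr continuous_const (continuous_id.sub continuous_const))
    · exact isOpen_lt continuous_const (continuous_cr continuous_const (continuous_id.sub continuous_const))
    · exact isOpen_lt continuous_const (continuous_cr continuous_const (continuous_id.sub continuous_const))

/-- The poles `-1, 1, 3, 4, 5, ...`. -/
def pol (n : ℕ) (i : Fin (n + 3)) : ℝ := if (i : ℕ) = 0 then -1 else if (i : ℕ) = 1 then 1 else i + 1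

/-- The weights `1/100, 1/100, 1, η, η, ...`. -/
noncomputable def wei (n : ℕ) (η : ℝ) (i : Fin (n + 3)) : ℝ :=
  if (i : ℕ) = 0 then 1 / 100 else if (i : ℕ) = 1 then 1 / 100 else if (i : ℕ) = 2 then 1 else η

theorem strictMono_pol (n : ℕ) : StrictMono (pol n) := by
  intro i j hij
  have h : (i : ℕ) < (j : ℕ) := hij
  have h' : ((i : ℕ) : ℝ) + 1 ≤ ((j : ℕ) : ℝ) := by exact_mod_cast h
  unfold pol
  split_ifs with h1 h2 h3 h4 h5
  · omega
  · norm_num
  · have : (0 : ℝ) ≤ ((j : ℕ) : ℝ) := Nat.cast_nonneg _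
    linarith
  · omega
  · omega
  · have : (i : ℕ) = 1 := h4
    rw [this] at h'
    push_cast at h'
    linarith
  · omega
  · omega
  · linarith

theorem wei_pos (n : ℕ) {η : ℝ} (hη : 0 < η) (i : Fin (n + 3)) : 0 < wei n η i := by
  unfold wei
  split_ifs <;> first | exact hη | norm_num

/-- The contribution of the far poles. -/
noncomputable def G (n : ℕ) (z : ℂ) : ℂ := ∑ l : Fin n, 1 / (z - ((l : ℕ) + 4 : ℝ))

theorem R_eq (n : ℕ) (η : ℝ) (z : ℂ) :
    R (pol n) (wei n η) z =
      1 / 100 / (z + 1) + 1 / 100 / (z - 1) + 1 / (z - 3) + η * G n z := by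
  unfold R
  rw [Fin.sum_univ_succ, Fin.sum_univ_succ, Fin.sum_univ_succ]
  have e : ∀ l : Fin n, ((wei n η l.succ.succ.succ : ℝ) : ℂ) /
      (z - ((pol n l.succ.succ.succ : ℝ) : ℂ)) = η * (1 / (z - ((l : ℕ) + 4 : ℝ))) := by
    intro l
    have h1 : wei n η l.succ.succ.succ = η := by simp [wei]
    have h2 : pol n l.succ.succ.succ = (l : ℕ) + 4 := by
      simp [pol]
      ring
    rw [h1, h2]
    push_cast
    ring
  rw [Finset.sum_congr rfl (fun l _ => e l), ← Finset.mul_sum]
  have h0 : pol n 0 = -1 := by simp [pol]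
  have h1 : pol n (Fin.succ 0) = 1 := by simp [pol]
  have hv2 : ((Fin.succ (Fin.succ 0) : Fin (n + 3)) : ℕ) = 2 := rfl
  have h2 : pol n (Fin.succ (Fin.succ 0)) = 3 := by rw [pol, hv2]; norm_num
  have g0 : wei n η 0 = 1 / 100 := by simp [wei]
  have g1 : wei n η (Fin.succ 0) = 1 / 100 := by simp [wei]
  have g2 : wei n η (Fin.succ (Fin.succ 0)) = 1 := by rw [wei, hv2]; norm_num
  rw [h0, h1, h2, g0, g1, g2]
  unfold G
  push_cast
  ring

/-- Values of the limit function at a point of the unit circle. -/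
theorem base_val {x y u v : ℝ} (hy : y ≠ 0) (hxy : x ^ 2 + y ^ 2 = 1)
    (hu : u = (x - 3) / (10 - 6 * x)) (hv : v = -y / (10 - 6 * x) - 1 / (100 * y)) :
    (1 / 100 / ((⟨x, y⟩ : ℂ) + 1) + 1 / 100 / ((⟨x, y⟩ : ℂ) - 1) + 1 / ((⟨x, y⟩ : ℂ) - 3)) =
      (⟨u, v⟩ : ℂ) := by
  have hx : x ≤ 1 := by nlinarith [sq_nonneg y]
  have hd : (10 - 6 * x) ≠ 0 := by
    have : 0 < 10 - 6 * x := by linarith
    exact this.ne'
  have k1 : (⟨x, y⟩ : ℂ) + 1 ≠ 0 := by
    intro h
    exact hy (by simpa using congrArg Complex.im h)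
  have k2 : (⟨x, y⟩ : ℂ) - 1 ≠ 0 := by
    intro h
    exact hy (by simpa using congrArg Complex.im h)
  have k3 : (⟨x, y⟩ : ℂ) - 3 ≠ 0 := by
    intro h
    have := congrArg Complex.im h
    simp at this
    exact hy this
  have s1 : (1 : ℂ) / 100 / ((⟨x, y⟩ : ℂ) + 1) + 1 / 100 / ((⟨x, y⟩ : ℂ) - 1) =
      (⟨0, -1 / (100 * y)⟩ : ℂ) := by
    rw [div_add_div _ _ k1 k2, div_eq_iff (mul_ne_zero k1 k2)]
    apply Complex.ext
    · simp
      field_simp
      nlinarith
    · simp
      field_simp
      nlinarith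
  have s2 : (1 : ℂ) / ((⟨x, y⟩ : ℂ) - 3) = (⟨(x - 3) / (10 - 6 * x), -y / (10 - 6 * x)⟩ : ℂ) := by
    obtain ⟨d, hd'⟩ : ∃ d, d = 10 - 6 * x := ⟨_, rfl⟩
    rw [← hd'] at hd ⊢
    rw [div_eq_iff k3]
    apply Complex.ext
    · simp
      field_simp
      rw [hd']
      linarith
    · simp
      field_simp
      ring
  rw [s1, s2, hu, hv]
  apply Complex.ext
  · simp
  · simp
    ring

/-- **Negative answer.** For every `k ≥ 3` there are poles `p_0 < ... < p_{k-1}` and positive weights
such that the image of the open upper half of the circle with diameter `[p_0, p_1]` is not the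
boundary of a closed convex subset of the plane. -/
theorem result : ∀ k : ℕ, 3 ≤ k → ∃ (p α : Fin k → ℝ) (j j' : Fin k), StrictMono p ∧
    (∀ l, 0 < α l) ∧ (j' : ℕ) = j + 1 ∧
    ∀ K : Set ℂ, IsClosed K → Convex ℝ K → frontier K ≠ R p α '' upperHalfCircle (p j) (p j') := by
  intro k hk
  obtain ⟨n, rfl⟩ : ∃ n, k = n + 3 := ⟨k - 3, by omega⟩
  -- the four points of the circle
  set za : ℂ := ⟨12 / 13, 5 / 13⟩ with hza
  set zb : ℂ := ⟨-12 / 13, 5 / 13⟩ with hzb
  set zc : ℂ := ⟨9999 / 10001, 200 / 10001⟩ with hzc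
  set zm : ℂ := ⟨3 / 5, 4 / 5⟩ with hzm
  have va : (1 / 100 / (za + 1) + 1 / 100 / (za - 1) + 1 / (za - 3)) =
      (⟨-27 / 58, -5 / 58 - 13 / 500⟩ : ℂ) := by
    rw [hza]; apply base_val <;> norm_num
  have vb : (1 / 100 / (zb + 1) + 1 / 100 / (zb - 1) + 1 / (zb - 3)) =
      (⟨-51 / 202, -5 / 202 - 13 / 500⟩ : ℂ) := by
    rw [hzb]; apply base_val <;> norm_num
  have vc : (1 / 100 / (zc + 1) + 1 / 100 / (zc - 1) + 1 / (zc - 3)) =
      (⟨-20004 / 40016, -200 / 40016 - 10001 / 20000⟩ : ℂ) := by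
    rw [hzc]; apply base_val <;> norm_num
  have vm : (1 / 100 / (zm + 1) + 1 / 100 / (zm - 1) + 1 / (zm - 3)) =
      (⟨-3 / 8, -1 / 8 - 1 / 80⟩ : ℂ) := by
    rw [hzm]; apply base_val <;> norm_num
  -- the images depend continuously on the small weight
  have hcont : ∀ z : ℂ, Continuous fun η : ℝ => R (pol n) (wei n η) z := by
    intro z
    simp_rw [R_eq]
    fun_prop
  have hval : ∀ z : ℂ, R (pol n) (wei n 0) z =
      1 / 100 / (z + 1) + 1 / 100 / (z - 1) + 1 / (z - 3) := by
    intro z
    rw [R_eq]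
    simp
  have hev : ∀ᶠ η : ℝ in 𝓝 0,
      0 < cr (R (pol n) (wei n η) zc - R (pol n) (wei n η) za)
        (R (pol n) (wei n η) zm - R (pol n) (wei n η) za) ∧
      0 < cr (R (pol n) (wei n η) zb - R (pol n) (wei n η) zc)
        (R (pol n) (wei n η) zm - R (pol n) (wei n η) zc) ∧
      0 < cr (R (pol n) (wei n η) za - R (pol n) (wei n η) zb)
        (R (pol n) (wei n η) zm - R (pol n) (wei n η) zb) := by
    refine Filter.Eventually.and ?_ (Filter.Eventually.and ?_ ?_)
    · have hc := continuous_cr ((hcont zc).sub (hcont za)) ((hcont zm).sub (hcont za))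
      refine (hc.tendsto 0).eventually (lt_mem_nhds ?_)
      simp only [Pi.sub_apply, hval, va, vc, vm, cr, Complex.sub_re, Complex.sub_im]
      norm_num
    · have hc := continuous_cr ((hcont zb).sub (hcont zc)) ((hcont zm).sub (hcont zc))
      refine (hc.tendsto 0).eventually (lt_mem_nhds ?_)
      simp only [Pi.sub_apply, hval, vb, vc, vm, cr, Complex.sub_re, Complex.sub_im]
      norm_num
    · have hc := continuous_cr ((hcont za).sub (hcont zb)) ((hcont zm).sub (hcont zb))
      refine (hc.tendsto 0).eventually (lt_mem_nhds ?_)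
      simp only [Pi.sub_apply, hval, va, vb, vm, cr, Complex.sub_re, Complex.sub_im]
      norm_num
  obtain ⟨η, ⟨h1, h2, h3⟩, hη⟩ :=
    ((hev.filter_mono nhdsWithin_le_nhds).and (self_mem_nhdsWithin (s := Set.Ioi (0 : ℝ)))).exists
  refine ⟨pol n, wei n η, 0, 1, strictMono_pol n, wei_pos n hη, by simp, ?_⟩
  intro K hKc hK hfr
  have p0 : pol n 0 = -1 := by simp [pol]
  have p1 : pol n 1 = 1 := by simp [pol]
  have hcirc : ∀ x y : ℝ, x ^ 2 + y ^ 2 = 1 → 0 < y →
      (⟨x, y⟩ : ℂ) ∈ upperHalfCircle (pol n 0) (pol n 1) := by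
    intro x y hxy hy
    refine ⟨?_, hy⟩
    rw [p0, p1]
    norm_num
    rw [Complex.norm_def, Complex.normSq_mk, show x * x + y * y = 1 by nlinarith, Real.sqrt_one]
  have hmem : ∀ z ∈ upperHalfCircle (pol n 0) (pol n 1), R (pol n) (wei n η) z ∈ frontier K := by
    intro z hz
    rw [hfr]
    exact ⟨z, hz, rfl⟩
  have hmemK : ∀ z ∈ upperHalfCircle (pol n 0) (pol n 1), R (pol n) (wei n η) z ∈ K :=
    fun z hz => hKc.frontier_subset (hmem z hz)
  have ca : za ∈ upperHalfCircle (pol n 0) (pol n 1) := hcirc _ _ (by norm_num) (by norm_num)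
  have cb : zb ∈ upperHalfCircle (pol n 0) (pol n 1) := hcirc _ _ (by norm_num) (by norm_num)
  have cc : zc ∈ upperHalfCircle (pol n 0) (pol n 1) := hcirc _ _ (by norm_num) (by norm_num)
  have cm : zm ∈ upperHalfCircle (pol n 0) (pol n 1) := hcirc _ _ (by norm_num) (by norm_num)
  have hint := mem_interior_of_triangle hK (hmemK za ca) (hmemK zc cc) (hmemK zb cb) h1 h2 h3
  exact (hmem zm cm).2 hint

end Pool.Agent.Results.MP_8e2370_an.NotConvex
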